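import Pool.Agent.Helper374.RidgeCore

set_option autoImplicit false

/-!
From a finite certificate to non-representability of a polygon by four ridge functions.
-/

namespace Pool.Agent.RidgeCert

/-- a half-plane `ap x + bp y + cn ≤ cp + an x + bn y` -/
structure HP where
  ap : ℕ
  an : ℕ
  bp : ℕ
  bn : ℕ
  cp : ℕ
  cn : ℕ

/-- the intersection of the half-planes -/
def KK (hps : List HP) : Set (ℝ × ℝ) :=
  {p | ∀ h ∈ hps, (h.ap : ℝ) * p.1 + h.bp * p.2 + h.cn ≤ h.cp + h.an * p.1 + h.bn * p.2}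

def inB (hps : List HP) (y l r : ℕ) : Bool :=
  hps.all fun h => Nat.ble (h.ap * r + h.bp * y + h.cn) (h.cp + h.an * l + h.bn * y)

def outB (hps : List HP) (j y l r : ℕ) : Bool :=
  match hps[j]? with
  | some h => Nat.blt (h.cp + h.an * r + h.bn * y) (h.ap * l + h.bp * y + h.cn)
  | none => false

/-- the whole box `[x0, x0 + 511] × [y0, y0 + 31]` lies in the half-plane -/
def boxOK (h : HP) (y0 x0 : ℕ) : Bool :=
  Nat.ble (h.ap * (x0 + 511) + h.bp * (y0 + 31) + h.cn) (h.cp + h.an * x0 + h.bn * y0)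

def chkP (hps : List HP) (ts : List Tile) : Bool :=
  ts.all fun t => t.2.2.all fun e =>
    Nat.ble (ex e + el e) 512 && Nat.ble (ey e) 31 &&
    inB (hps.filter fun h => !(boxOK h t.1 t.2.1))
      (t.1 + ey e) (t.2.1 + ex e) (t.2.1 + ex e + (el e - 1))

def chkM (hps : List HP) (ts : List Tile) : Bool :=
  ts.all fun t => t.2.2.all fun e =>
    outB hps (ej e) (t.1 + ey e) (t.2.1 + ex e) (t.2.1 + ex e + (el e - 1))

def anyPos (ts : List Tile) : Bool :=
  ts.any fun t => t.2.2.any fun e => Nat.blt 0 (sm (dg e))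

theorem inB_spec {hps : List HP} {y l r : ℕ} (h : inB hps y l r = true) (k : ℕ) (h1 : l ≤ k)
    (h2 : k ≤ r) : ((k : ℝ), (y : ℝ)) ∈ KK hps := by
  intro q hq
  unfold inB at h
  rw [List.all_eq_true] at h
  have := h q hq
  rw [Nat.ble_eq] at this
  have h3 : q.ap * k + q.bp * y + q.cn ≤ q.cp + q.an * k + q.bn * y := by
    have e1 : q.ap * k ≤ q.ap * r := Nat.mul_le_mul_left _ h2
    have e2 : q.an * l ≤ q.an * k := Nat.mul_le_mul_left _ h1
    omega
  simp only
  exact_mod_cast h3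

theorem chkP_spec {hps : List HP} {ts : List Tile} (h : chkP hps ts = true) (t : Tile) (ht : t ∈ ts)
    (e : ℕ) (he : e ∈ t.2.2) (k : ℕ) (h1 : t.2.1 + ex e ≤ k) (h2 : k < t.2.1 + ex e + el e) :
    ((k : ℝ), ((t.1 + ey e : ℕ) : ℝ)) ∈ KK hps := by
  unfold chkP at h
  rw [List.all_eq_true] at h
  have h3 := h t ht
  rw [List.all_eq_true] at h3
  have h4 := h3 e he
  rw [Bool.and_eq_true, Bool.and_eq_true, Nat.ble_eq, Nat.ble_eq] at h4
  obtain ⟨⟨h5, h6⟩, h7⟩ := h4
  intro q hq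
  by_cases hb : boxOK q t.1 t.2.1 = true
  · unfold boxOK at hb
    rw [Nat.ble_eq] at hb
    have e1 : q.ap * k ≤ q.ap * (t.2.1 + 511) := Nat.mul_le_mul_left _ (by omega)
    have e2 : q.an * t.2.1 ≤ q.an * k := Nat.mul_le_mul_left _ (by omega)
    have e3 : q.bp * (t.1 + ey e) ≤ q.bp * (t.1 + 31) := Nat.mul_le_mul_left _ (by omega)
    have e4 : q.bn * t.1 ≤ q.bn * (t.1 + ey e) := Nat.mul_le_mul_left _ (by omega)
    have h8 : q.ap * k + q.bp * (t.1 + ey e) + q.cn ≤ q.cp + q.an * k + q.bn * (t.1 + ey e) := by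
      omega
    simp only
    exact_mod_cast h8
  · have h8 := inB_spec h7 k h1 (by omega) q (by
      rw [List.mem_filter]
      refine ⟨hq, ?_⟩
      simpa using hb)
    exact h8

theorem outB_spec {hps : List HP} {j y l r : ℕ} (h : outB hps j y l r = true) (k : ℕ) (h1 : l ≤ k)
    (h2 : k ≤ r) : ((k : ℝ), (y : ℝ)) ∉ KK hps := by
  intro hK
  unfold outB at h
  cases hj : hps[j]? with
  | none => rw [hj] at h; simp at h
  | some q =>
    rw [hj] at h
    simp only at h
    rw [Nat.blt_eq] at h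
    have hq : q ∈ hps := List.mem_of_getElem? hj
    have h3 := hK q hq
    simp only at h3
    have h4 : q.ap * k + q.bp * y + q.cn ≤ q.cp + q.an * k + q.bn * y := by exact_mod_cast h3
    have e1 : q.ap * l ≤ q.ap * k := Nat.mul_le_mul_left _ h1
    have e2 : q.an * k ≤ q.an * r := Nat.mul_le_mul_left _ h2
    omega

theorem S1_nonneg (G : ℕ → ℕ → ℝ) (y0 x0 : ℕ) (es : List ℕ)
    (h : ∀ e ∈ es, ∀ k, x0 + ex e ≤ k → k < x0 + ex e + el e → 0 ≤ G (y0 + ey e) k) :
    0 ≤ S1 G y0 x0 es := by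
  induction es with
  | nil => simp [S1]
  | cons e es ih =>
    simp only [S1]
    have h1 : 0 ≤ ev (fun i => G (y0 + ey e) i) (x0 + ex e) (dg e) :=
      ev_nonneg (fun k h1 h2 => h e (by simp) k h1 (by rwa [dg_length] at h2))
    have h2 := ih (fun e he => h e (by simp [he]))
    linarith

theorem S_nonneg (G : ℕ → ℕ → ℝ) (ts : List Tile)
    (h : ∀ t ∈ ts, ∀ e ∈ t.2.2, ∀ k, t.2.1 + ex e ≤ k → k < t.2.1 + ex e + el e →
      0 ≤ G (t.1 + ey e) k) : 0 ≤ S G ts := by
  induction ts with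
  | nil => simp [S]
  | cons t ts ih =>
    simp only [S]
    have h1 := S1_nonneg G t.1 t.2.1 t.2.2 (h t (by simp))
    have h2 := ih (fun t ht => h t (by simp [ht]))
    linarith

theorem S1_nonpos (G : ℕ → ℕ → ℝ) (y0 x0 : ℕ) (es : List ℕ)
    (h : ∀ e ∈ es, ∀ k, x0 + ex e ≤ k → k < x0 + ex e + el e → G (y0 + ey e) k < 0) :
    S1 G y0 x0 es ≤ 0 := by
  induction es with
  | nil => simp [S1]
  | cons e es ih =>
    simp only [S1]
    have h1 : ev (fun i => G (y0 + ey e) i) (x0 + ex e) (dg e) ≤ 0 :=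
      ev_nonpos (fun k h1 h2 => h e (by simp) k h1 (by rwa [dg_length] at h2))
    have h2 := ih (fun e he => h e (by simp [he]))
    linarith

theorem S1_neg (G : ℕ → ℕ → ℝ) (y0 x0 : ℕ) (es : List ℕ)
    (h : ∀ e ∈ es, ∀ k, x0 + ex e ≤ k → k < x0 + ex e + el e → G (y0 + ey e) k < 0)
    (hp : ∃ e ∈ es, 0 < sm (dg e)) : S1 G y0 x0 es < 0 := by
  induction es with
  | nil => simp at hp
  | cons e es ih =>
    simp only [S1]
    have hh : ∀ k, x0 + ex e ≤ k → k < x0 + ex e + (dg e).length → G (y0 + ey e) k < 0 :=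
      fun k h1 h2 => h e (by simp) k h1 (by rwa [dg_length] at h2)
    by_cases he : 0 < sm (dg e)
    · have h1 := ev_neg (φ := fun i => G (y0 + ey e) i) he hh
      have h2 := S1_nonpos G y0 x0 es (fun e he => h e (by simp [he]))
      linarith
    · have h1 := ev_nonpos (φ := fun i => G (y0 + ey e) i) hh
      have h2 := ih (fun e he => h e (by simp [he])) (by
        obtain ⟨e', he', hp'⟩ := hp
        rcases List.mem_cons.1 he' with rfl | he'
        · exact absurd hp' he
        · exact ⟨e', he', hp'⟩)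
      linarith

theorem S_nonpos (G : ℕ → ℕ → ℝ) (ts : List Tile)
    (h : ∀ t ∈ ts, ∀ e ∈ t.2.2, ∀ k, t.2.1 + ex e ≤ k → k < t.2.1 + ex e + el e →
      G (t.1 + ey e) k < 0) : S G ts ≤ 0 := by
  induction ts with
  | nil => simp [S]
  | cons t ts ih =>
    simp only [S]
    have h1 := S1_nonpos G t.1 t.2.1 t.2.2 (h t (by simp))
    have h2 := ih (fun t ht => h t (by simp [ht]))
    linarith

theorem S_neg (G : ℕ → ℕ → ℝ) (ts : List Tile)
    (h : ∀ t ∈ ts, ∀ e ∈ t.2.2, ∀ k, t.2.1 + ex e ≤ k → k < t.2.1 + ex e + el e →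
      G (t.1 + ey e) k < 0) (hp : ∃ t ∈ ts, ∃ e ∈ t.2.2, 0 < sm (dg e)) : S G ts < 0 := by
  induction ts with
  | nil => simp at hp
  | cons t ts ih =>
    simp only [S]
    by_cases ht : ∃ e ∈ t.2.2, 0 < sm (dg e)
    · have h1 := S1_neg G t.1 t.2.1 t.2.2 (h t (by simp)) ht
      have h2 := S_nonpos G ts (fun t ht => h t (by simp [ht]))
      linarith
    · have h1 := S1_nonpos G t.1 t.2.1 t.2.2 (h t (by simp))
      have h2 := ih (fun t ht => h t (by simp [ht])) (by
        obtain ⟨t', ht', hp'⟩ := hp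
        rcases List.mem_cons.1 ht' with rfl | ht'
        · exact absurd hp' ht
        · exact ⟨t', ht', hp'⟩)
      linarith

theorem not_ridge (hps : List HP) (P M : List Tile) (c : Cert P M) (hP : chkP hps P = true)
    (hM : chkM hps M = true) (hpos : anyPos M = true) (g1 g2 g3 g4 : ℝ → ℝ)
    (hK : KK hps = {p : ℝ × ℝ | 0 ≤ g1 p.1 + g2 p.2 + g3 (2 * p.1 + p.2) + g4 (-p.1 + 2 * p.2)}) :
    False := by
  have h := c.transfer g1 g2 g3 g4
  have h1 : 0 ≤ S (fun y x => g1 x + g2 y + g3 (2 * x + y) + g4 (-x + 2 * y)) P := by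
    apply S_nonneg
    intro t ht e he k h1 h2
    have h4 := chkP_spec hP t ht e he k h1 h2
    rw [hK] at h4
    exact h4
  have h2 : S (fun y x => g1 x + g2 y + g3 (2 * x + y) + g4 (-x + 2 * y)) M < 0 := by
    apply S_neg
    · intro t ht e he k h1 h2
      unfold chkM at hM
      rw [List.all_eq_true] at hM
      have h3 := hM t ht
      rw [List.all_eq_true] at h3
      have h4 := outB_spec (h3 e he) k h1 (by omega)
      rw [hK] at h4
      exact lt_of_not_ge h4
    · unfold anyPos at hpos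
      rw [List.any_eq_true] at hpos
      obtain ⟨t, ht, h3⟩ := hpos
      rw [List.any_eq_true] at h3
      obtain ⟨e, he, h4⟩ := h3
      rw [Nat.blt_eq] at h4
      exact ⟨t, ht, e, he, h4⟩
  linarith

theorem KK_convex (hps : List HP) : Convex ℝ (KK hps) := by
  intro x hx y hy a b ha hb hab h hh
  have h1 := hx h hh
  have h2 := hy h hh
  simp only [Prod.fst_add, Prod.snd_add, Prod.smul_fst, Prod.smul_snd, smul_eq_mul]
  have h3 := mul_le_mul_of_nonneg_left h1 ha
  have h4 := mul_le_mul_of_nonneg_left h2 hb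
  have hb' : b = 1 - a := by linarith
  subst hb'
  nlinarith [h3, h4]

theorem KK_closed (hps : List HP) : IsClosed (KK hps) := by
  have : KK hps = ⋂ h ∈ {h | h ∈ hps},
      {p : ℝ × ℝ | (h.ap : ℝ) * p.1 + h.bp * p.2 + h.cn ≤ h.cp + h.an * p.1 + h.bn * p.2} := by
    ext p; simp [KK]
  rw [this]
  apply isClosed_biInter
  intro h _
  apply isClosed_le <;> fun_prop

theorem KK_interior (hps : List HP) (x y : ℕ)
    (h : (hps.all fun h => Nat.blt (h.ap * x + h.bp * y + h.cn) (h.cp + h.an * x + h.bn * y)) = true) :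
    (interior (KK hps)).Nonempty := by
  refine ⟨((x : ℝ), (y : ℝ)), ?_⟩
  rw [mem_interior]
  refine ⟨⋂ h ∈ hps.toArray.toList, {p : ℝ × ℝ | (h.ap : ℝ) * p.1 + h.bp * p.2 + h.cn < h.cp + h.an * p.1 + h.bn * p.2}, ?_, ?_, ?_⟩
  · intro p hp q hq
    simp only [Set.mem_iInter, Set.mem_ofPred_eq] at hp
    exact (hp q (by simpa using hq)).le
  · have hf : {h | h ∈ hps.toArray.toList}.Finite := List.finite_toSet _
    apply hf.isOpen_biInter
    intro h _
    apply isOpen_lt <;> fun_prop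
  · simp only [Set.mem_iInter, Set.mem_ofPred_eq]
    intro q hq
    rw [List.all_eq_true] at h
    have h1 := h q (by simpa using hq)
    rw [Nat.blt_eq] at h1
    exact_mod_cast h1

end Pool.Agent.RidgeCert
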