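import Pool.Agent.Helper374.RidgeDataP0
import Pool.Agent.Helper374.RidgeDataP1
import Pool.Agent.Helper374.RidgeDataP2
import Pool.Agent.Helper374.RidgeDataP3
import Pool.Agent.Helper374.RidgeDataM0
import Pool.Agent.Helper374.RidgeDataM1
import Pool.Agent.Helper374.RidgeDataM2
import Pool.Agent.Helper374.RidgeDataM3

set_option autoImplicit false

/-!
Kernel checks of the certificate data.
-/

namespace Pool.Agent.RidgeCert

/-- positive part of the certificate -/
def dP : List Tile := dP0 ++ dP1 ++ dP2 ++ dP3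
/-- negative part of the certificate -/
def dM : List Tile := dM0 ++ dM1 ++ dM2 ++ dM3

/-- the 24 half-planes cutting out the polygon -/
def hps : List HP := [
  ⟨0, 932109, 1048576, 0, 6939985201, 0⟩,
  ⟨932109, 0, 0, 1048576, 4129995481, 0⟩,
  ⟨0, 1048576, 105851, 0, 655295636, 0⟩,
  ⟨1048576, 0, 0, 105851, 4838610476, 0⟩,
  ⟨0, 1048576, 0, 211921, 0, 1335693500⟩,
  ⟨1048576, 0, 211921, 0, 5021181820, 0⟩,
  ⟨0, 1048576, 0, 380968, 0, 2295265376⟩,
  ⟨1048576, 0, 380968, 0, 5217891424, 0⟩,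
  ⟨0, 1048576, 0, 498680, 0, 2875996628⟩,
  ⟨1048576, 0, 498680, 0, 5442310252, 0⟩,
  ⟨0, 1048576, 0, 596768, 0, 3276929323⟩,
  ⟨1048576, 0, 596768, 0, 5712299477, 0⟩,
  ⟨0, 1048576, 0, 691472, 0, 3579601484⟩,
  ⟨1048576, 0, 691472, 0, 6057402676, 0⟩,
  ⟨0, 1048576, 0, 796844, 0, 3824037745⟩,
  ⟨1048576, 0, 796844, 0, 6533710895, 0⟩,
  ⟨0, 1048576, 0, 934307, 0, 4032774560⟩,
  ⟨1048576, 0, 934307, 0, 7265221000, 0⟩,
  ⟨0, 950945, 0, 1048576, 0, 3827722996⟩,
  ⟨950945, 0, 1048576, 0, 7794959444, 0⟩,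
  ⟨0, 656283, 0, 1048576, 0, 2755543531⟩,
  ⟨656283, 0, 1048576, 0, 7488120749, 0⟩,
  ⟨0, 180588, 0, 1048576, 0, 806412521⟩,
  ⟨180588, 0, 1048576, 0, 7210999159, 0⟩]

theorem eX : Nat.beq (tot kAll relX baseX dP) (tot kAll relX baseX dM) = true := by
  decide +kernel

theorem eW : Nat.beq (tot kAll relW baseW dP) (tot kAll relW baseW dM) = true := by
  decide +kernel

theorem eE : Nat.beq (tot kEven relH baseH dP) (tot kEven relH baseH dM) = true := by
  decide +kernel

theorem eO : Nat.beq (tot kOdd relH baseH dP) (tot kOdd relH baseH dM) = true := by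
  decide +kernel

theorem eY : Nat.beq (ytot dP) (ytot dM) = true := by
  decide +kernel

theorem shapeP : shape dP = true := by decide +kernel
theorem shapeM : shape dM = true := by decide +kernel

theorem cntP : Nat.ble (cnt dP) 13202 = true := by decide +kernel
theorem cntM : Nat.ble (cnt dM) 12470 = true := by decide +kernel

theorem cert : Cert dP dM where
  cP := lt_of_le_of_lt (Nat.mul_le_mul_right _ (Nat.le_of_ble_eq_true cntP)) (by norm_num [cb, B])
  cM := lt_of_le_of_lt (Nat.mul_le_mul_right _ (Nat.le_of_ble_eq_true cntM)) (by norm_num [cb, B])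
  sP := shapeP
  sM := shapeM
  eX := Nat.eq_of_beq_eq_true eX
  eW := Nat.eq_of_beq_eq_true eW
  eE := Nat.eq_of_beq_eq_true eE
  eO := Nat.eq_of_beq_eq_true eO
  eY := Nat.eq_of_beq_eq_true eY

theorem chkP_ok : chkP hps dP = true := by decide +kernel
theorem chkM_ok : chkM hps dM = true := by decide +kernel
theorem anyPos_ok : anyPos dM = true := by decide +kernel

end Pool.Agent.RidgeCert
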