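import Mathlib

set_option autoImplicit false

/-!
Finite signed certificates against representability by four ridge functions, in packed form.
Coordinates are natural numbers; the four functionals are x, y, 2x+y and -x+2y.
-/

namespace Pool.Agent.RidgeCert

open Polynomial

/-- bound for the weights -/
def cb : ℕ := 2 ^ 30
/-- packing base -/
def B : ℕ := 2 ^ 56

/-- the digits of a packed number -/
def unpack : ℕ → ℕ → List ℕ
  | 0, _ => []
  | n + 1, x => (x % B) :: unpack n (x / B)

/-- mask allowing digits below `2 ^ 30` -/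
def maskN : ℕ → ℕ
  | 0 => 0
  | n + 1 => (2 ^ 30 - 1) + 2 ^ 56 * maskN n

/-- packed value of a list of digits -/
def pk : List ℕ → ℕ
  | [] => 0
  | d :: ds => d + B * pk ds

/-- sum of a list of digits -/
def sm : List ℕ → ℕ
  | [] => 0
  | d :: ds => d + sm ds

theorem unpack_lt : ∀ (len n x : ℕ), len ≤ n → x &&& maskN n = x → ∀ d ∈ unpack len x, d < cb := by
  intro len
  induction len with
  | zero => intro n x _ _ d hd; simp [unpack] at hd
  | succ len ih =>
    intro n x hn hx d hd
    obtain ⟨n, rfl⟩ : ∃ k, n = k + 1 := ⟨n - 1, by omega⟩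
    have h1 : maskN (n + 1) % 2 ^ 56 = 2 ^ 30 - 1 := by
      simp only [maskN]
      rw [Nat.add_mul_mod_self_left]
      norm_num
    have h2 : maskN (n + 1) / 2 ^ 56 = maskN n := by
      simp only [maskN]
      rw [Nat.add_mul_div_left _ _ (by norm_num)]
      norm_num
    simp only [unpack, List.mem_cons] at hd
    rcases hd with rfl | hd
    · have h3 : x % 2 ^ 56 = (x % 2 ^ 56) % 2 ^ 30 := by
        conv_lhs => rw [← hx, Nat.and_mod_two_pow, h1]
        exact Nat.and_two_pow_sub_one_eq_mod _ _
      show x % 2 ^ 56 < 2 ^ 30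
      rw [h3]
      exact Nat.mod_lt _ (by norm_num)
    · apply ih n (x / B) (by omega) _ d hd
      show x / 2 ^ 56 &&& maskN n = x / 2 ^ 56
      conv_rhs => rw [← hx, Nat.and_div_two_pow, h2]

theorem unpack_length (n x : ℕ) : (unpack n x).length = n := by
  induction n generalizing x with
  | zero => rfl
  | succ n ih => simp [unpack, ih]

theorem pk_unpack (n x : ℕ) (h : x < B ^ n) : pk (unpack n x) = x := by
  induction n generalizing x with
  | zero =>
    simp only [pow_zero, Nat.lt_one_iff] at h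
    simp [unpack, pk, h]
  | succ n ih =>
    simp only [unpack, pk]
    rw [ih (x / B) (by
      rw [Nat.div_lt_iff_lt_mul (by norm_num [B])]
      rwa [pow_succ] at h)]
    exact Nat.mod_add_div x B

theorem pk_mod (ds : List ℕ) : pk ds % (B - 1) = sm ds % (B - 1) := by
  induction ds with
  | nil => rfl
  | cons d ds ih =>
    simp only [pk, sm]
    have h1 : B * pk ds % (B - 1) = pk ds % (B - 1) := by
      have h2 : B = (B - 1) + 1 := by norm_num [B]
      conv_lhs => rw [h2]
      rw [show (B - 1 + 1 - 1) = B - 1 by omega, Nat.add_mul, one_mul, Nat.mul_comm (B - 1) (pk ds)]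
      rw [Nat.add_comm, Nat.add_mul_mod_self_right]
    rw [Nat.add_mod, h1, ih, ← Nat.add_mod]

/-- polynomial of a digit list placed at index `i` -/
noncomputable def pol : ℕ → List ℕ → ℕ[X]
  | _, [] => 0
  | i, d :: ds => monomial i d + pol (i + 1) ds

/-- weighted sum of a function along a digit list placed at index `i` -/
noncomputable def ev (φ : ℕ → ℝ) : ℕ → List ℕ → ℝ
  | _, [] => 0
  | i, d :: ds => (d : ℝ) * φ i + ev φ (i + 1) ds

theorem pol_eval (i : ℕ) (ds : List ℕ) : (pol i ds).eval B = B ^ i * pk ds := by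
  induction ds generalizing i with
  | nil => simp [pol, pk]
  | cons d ds ih =>
    simp only [pol, pk, eval_add, eval_monomial, ih]
    ring

theorem pol_coeff_of_lt (i : ℕ) (ds : List ℕ) (t : ℕ) (h : t < i) : (pol i ds).coeff t = 0 := by
  induction ds generalizing i with
  | nil => simp [pol]
  | cons d ds ih =>
    simp only [pol, coeff_add, coeff_monomial]
    rw [ih (i + 1) (by omega), if_neg (by omega)]

theorem pol_coeff_le (i : ℕ) (ds : List ℕ) (M : ℕ) (h : ∀ d ∈ ds, d ≤ M) (t : ℕ) :
    (pol i ds).coeff t ≤ M := by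
  induction ds generalizing i with
  | nil => simp [pol]
  | cons d ds ih =>
    simp only [pol, coeff_add, coeff_monomial]
    by_cases hit : i = t
    · rw [if_pos hit, pol_coeff_of_lt _ _ _ (by omega)]
      simpa using h d (by simp)
    · rw [if_neg hit, zero_add]
      exact ih (i + 1) (fun d hd => h d (by simp [hd]))

/-- linear functional on polynomials -/
noncomputable def lam (φ : ℕ → ℝ) (p : ℕ[X]) : ℝ := p.sum fun k a => (a : ℝ) * φ k

theorem lam_add (φ : ℕ → ℝ) (p q : ℕ[X]) : lam φ (p + q) = lam φ p + lam φ q := by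
  unfold lam
  apply Polynomial.sum_add_index
  · intro i; simp
  · intro a b₁ b₂; push_cast; ring

theorem lam_zero (φ : ℕ → ℝ) : lam φ 0 = 0 := by simp [lam]

theorem lam_pol (φ : ℕ → ℝ) (i : ℕ) (ds : List ℕ) : lam φ (pol i ds) = ev φ i ds := by
  induction ds generalizing i with
  | nil => simp [pol, ev, lam_zero]
  | cons d ds ih =>
    simp only [pol, ev, lam_add, ih]
    congr 1
    unfold lam
    rw [Polynomial.sum_monomial_index]
    simp

theorem poly_unique (p q : ℕ[X]) (b : ℕ) (hb : 0 < b) (hp : ∀ t, p.coeff t < b)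
    (hq : ∀ t, q.coeff t < b) (h : p.eval b = q.eval b) : p = q := by
  suffices H : ∀ (n : ℕ) (p q : ℕ[X]), p.natDegree < n → q.natDegree < n →
      (∀ t, p.coeff t < b) → (∀ t, q.coeff t < b) → p.eval b = q.eval b → p = q by
    exact H (max p.natDegree q.natDegree + 1) p q (by omega) (by omega) hp hq h
  intro n
  induction n with
  | zero => intro p q h; omega
  | succ n ih =>
    intro p q hpn hqn hp hq h
    have e1 : p.eval b = b * (p.divX).eval b + p.coeff 0 := by
      conv_lhs => rw [← Polynomial.divX_mul_X_add p]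
      simp [eval_add, eval_mul]; ring
    have e2 : q.eval b = b * (q.divX).eval b + q.coeff 0 := by
      conv_lhs => rw [← Polynomial.divX_mul_X_add q]
      simp [eval_add, eval_mul]; ring
    rw [e1, e2] at h
    have h0 : p.coeff 0 = q.coeff 0 := by
      have := congrArg (· % b) h
      simpa [Nat.add_mod, Nat.mod_eq_of_lt (hp 0), Nat.mod_eq_of_lt (hq 0)] using this
    have h1 : (p.divX).eval b = (q.divX).eval b := by
      rw [h0] at h
      have : b * (p.divX).eval b = b * (q.divX).eval b := by omega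
      exact Nat.eq_of_mul_eq_mul_left hb this
    have hd : p.divX = q.divX := by
      rcases Nat.eq_zero_or_pos n with hn | hn
      · subst hn
        have hp0 : p.natDegree = 0 := by omega
        have hq0 : q.natDegree = 0 := by omega
        rw [Polynomial.eq_C_of_natDegree_eq_zero hp0, Polynomial.eq_C_of_natDegree_eq_zero hq0]
        rw [Polynomial.divX_C, Polynomial.divX_C]
      · apply ih
        · rw [Polynomial.natDegree_divX_eq_natDegree_tsub_one]; omega
        · rw [Polynomial.natDegree_divX_eq_natDegree_tsub_one]; omega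
        · intro t; rw [Polynomial.coeff_divX]; exact hp _
        · intro t; rw [Polynomial.coeff_divX]; exact hq _
        · exact h1
    rw [← Polynomial.divX_mul_X_add p, ← Polynomial.divX_mul_X_add q, hd, h0]

/-! ### entries -/

/-- An entry `e` encodes `y`, offset `x`, length, witness index and the digits. -/
def ey (e : ℕ) : ℕ := e % 8192
def ex (e : ℕ) : ℕ := e / 8192 % 8192
def el (e : ℕ) : ℕ := e / 67108864 % 256
def ej (e : ℕ) : ℕ := e / 17179869184 % 32
def en (e : ℕ) : ℕ := e / 549755813888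

def dg (e : ℕ) : List ℕ := unpack (el e) (en e)

/-- the entry is well formed: packed value below `B ^ length`, digits below `2 ^ 30` -/
def wfe (e : ℕ) : Bool := Nat.blt (en e) (B ^ el e) && Nat.beq (Nat.land (en e) (maskN 256)) (en e)

theorem el_lt (e : ℕ) : el e < 256 := Nat.mod_lt _ (by norm_num)

theorem dg_lt (e : ℕ) (h : wfe e = true) : ∀ d ∈ dg e, d < cb := by
  unfold wfe at h
  rw [Bool.and_eq_true] at h
  exact unpack_lt (el e) 256 (en e) (el_lt e).le (Nat.eq_of_beq_eq_true h.2)

theorem dg_pk (e : ℕ) (h : wfe e = true) : pk (dg e) = en e := by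
  unfold wfe at h
  rw [Bool.and_eq_true, Nat.blt_eq] at h
  exact pk_unpack _ _ h.1

theorem dg_length (e : ℕ) : (dg e).length = el e := unpack_length _ _

theorem ev_shift (φ : ℕ → ℝ) (s i : ℕ) (ds : List ℕ) :
    ev (fun k => φ (k + s)) i ds = ev φ (i + s) ds := by
  induction ds generalizing i with
  | nil => rfl
  | cons d ds ih =>
    simp only [ev, ih]
    rw [show i + 1 + s = i + s + 1 by ring]

theorem ev_congr {φ ψ : ℕ → ℝ} {i : ℕ} {ds : List ℕ}
    (h : ∀ k, i ≤ k → k < i + ds.length → φ k = ψ k) : ev φ i ds = ev ψ i ds := by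
  induction ds generalizing i with
  | nil => rfl
  | cons d ds ih =>
    simp only [ev]
    rw [h i le_rfl (by simp), ih (fun k h1 h2 => h k (by omega) (by simp; omega))]

theorem ev_add (φ ψ : ℕ → ℝ) (i : ℕ) (ds : List ℕ) :
    ev (fun k => φ k + ψ k) i ds = ev φ i ds + ev ψ i ds := by
  induction ds generalizing i with
  | nil => simp [ev]
  | cons d ds ih => simp only [ev, ih]; ring

theorem ev_const (c : ℝ) (i : ℕ) (ds : List ℕ) : ev (fun _ => c) i ds = (sm ds : ℝ) * c := by
  induction ds generalizing i with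
  | nil => simp [ev, sm]
  | cons d ds ih => simp only [ev, sm, ih]; push_cast; ring

theorem ev_nonneg {φ : ℕ → ℝ} {i : ℕ} {ds : List ℕ}
    (h : ∀ k, i ≤ k → k < i + ds.length → 0 ≤ φ k) : 0 ≤ ev φ i ds := by
  induction ds generalizing i with
  | nil => simp [ev]
  | cons d ds ih =>
    simp only [ev]
    have h1 := h i le_rfl (by simp)
    have h2 := ih (i := i + 1) (fun k h1 h2 => h k (by omega) (by simp; omega))
    positivity

theorem ev_nonpos {φ : ℕ → ℝ} {i : ℕ} {ds : List ℕ}
    (h : ∀ k, i ≤ k → k < i + ds.length → φ k < 0) : ev φ i ds ≤ 0 := by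
  induction ds generalizing i with
  | nil => simp [ev]
  | cons d ds ih =>
    simp only [ev]
    have h1 := h i le_rfl (by simp)
    have h2 := ih (i := i + 1) (fun k h1 h2 => h k (by omega) (by simp; omega))
    have h3 : (d : ℝ) * φ i ≤ 0 := mul_nonpos_of_nonneg_of_nonpos (by positivity) h1.le
    linarith

theorem ev_neg {φ : ℕ → ℝ} {i : ℕ} {ds : List ℕ} (hs : 0 < sm ds)
    (h : ∀ k, i ≤ k → k < i + ds.length → φ k < 0) : ev φ i ds < 0 := by
  induction ds generalizing i with
  | nil => simp [sm] at hs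
  | cons d ds ih =>
    simp only [ev]
    have h1 := h i le_rfl (by simp)
    have h2' : ∀ k, i + 1 ≤ k → k < i + 1 + ds.length → φ k < 0 :=
      fun k h1 h2 => h k (by omega) (by simp; omega)
    rcases Nat.eq_zero_or_pos d with hd | hd
    · subst hd
      simp only [sm, zero_add] at hs
      have := ih (i := i + 1) hs h2'
      simpa using this
    · have h2 := ev_nonpos (i := i + 1) h2'
      have h3 : (d : ℝ) * φ i < 0 := mul_neg_of_pos_of_neg (by exact_mod_cast hd) h1
      linarith

/-! ### tiles -/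

/-- a tile: base row, base column, entries with relative positions -/
abbrev Tile := ℕ × ℕ × List ℕ

/-- packed sums inside a tile -/
def tsum (keep : ℕ → Bool) (rel : ℕ → ℕ → ℕ) : List ℕ → ℕ
  | [] => 0
  | e :: es => (bif keep (ey e) then en e * B ^ rel (ey e) (ex e) else 0) + tsum keep rel es

def tot (keep : ℕ → Bool) (rel base : ℕ → ℕ → ℕ) : List Tile → ℕ
  | [] => 0
  | t :: ts => B ^ base t.1 t.2.1 * tsum keep rel t.2.2 + tot keep rel base ts

/-- row sums -/
def ysum : List ℕ → ℕ
  | [] => 0
  | e :: es => (en e % (B - 1)) * B ^ ey e + ysum es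

def ytot : List Tile → ℕ
  | [] => 0
  | t :: ts => B ^ t.1 * ysum t.2.2 + ytot ts

/-- number of entries -/
def cnt : List Tile → ℕ
  | [] => 0
  | t :: ts => t.2.2.length + cnt ts

noncomputable def qsum (keep : ℕ → Bool) (abs : ℕ → ℕ → ℕ) : List ℕ → ℕ[X]
  | [] => 0
  | e :: es => (bif keep (ey e) then pol (abs (ey e) (ex e)) (dg e) else 0) + qsum keep abs es

noncomputable def qtot (keep : ℕ → Bool) (rel base : ℕ → ℕ → ℕ) : List Tile → ℕ[X]
  | [] => 0
  | t :: ts => qsum keep (fun dy dx => base t.1 t.2.1 + rel dy dx) t.2.2 + qtot keep rel base ts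

/-- all entries of all tiles are well formed -/
def WF (ts : List Tile) : Prop := ∀ t ∈ ts, ∀ e ∈ t.2.2, wfe e = true

theorem WF.tail {t : Tile} {ts : List Tile} (h : WF (t :: ts)) : WF ts :=
  fun t' ht' => h t' (List.mem_cons_of_mem _ ht')

theorem WF.head {t : Tile} {ts : List Tile} (h : WF (t :: ts)) : ∀ e ∈ t.2.2, wfe e = true :=
  h t List.mem_cons_self

theorem qsum_eval (keep : ℕ → Bool) (rel : ℕ → ℕ → ℕ) (b : ℕ) (es : List ℕ)
    (h : ∀ e ∈ es, wfe e = true) :
    (qsum keep (fun dy dx => b + rel dy dx) es).eval B = B ^ b * tsum keep rel es := by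
  induction es with
  | nil => simp [qsum, tsum]
  | cons e es ih =>
    simp only [qsum, tsum, eval_add, ih (fun e he => h e (List.mem_cons_of_mem _ he))]
    have he := dg_pk e (h e List.mem_cons_self)
    cases keep (ey e) with
    | true =>
      simp only [cond_true, pol_eval, he]
      ring
    | false => simp

theorem qtot_eval (keep : ℕ → Bool) (rel base : ℕ → ℕ → ℕ) (ts : List Tile) (h : WF ts) :
    (qtot keep rel base ts).eval B = tot keep rel base ts := by
  induction ts with
  | nil => simp [qtot, tot]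
  | cons t ts ih => simp only [qtot, tot, eval_add, ih h.tail, qsum_eval _ _ _ _ h.head]

theorem qsum_coeff (keep : ℕ → Bool) (abs : ℕ → ℕ → ℕ) (es : List ℕ) (k : ℕ)
    (h : ∀ e ∈ es, wfe e = true) :
    (qsum keep abs es).coeff k ≤ es.length * (cb - 1) := by
  induction es with
  | nil => simp [qsum]
  | cons e es ih =>
    simp only [qsum, coeff_add, List.length_cons]
    have h1 : (bif keep (ey e) then pol (abs (ey e) (ex e)) (dg e) else 0 : ℕ[X]).coeff k ≤ cb - 1 := by
      cases keep (ey e) with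
      | true =>
        simp only [cond_true]
        exact pol_coeff_le _ _ _
          (fun d hd => Nat.le_sub_one_of_lt (dg_lt e (h e List.mem_cons_self) d hd)) _
      | false => simp
    calc _ ≤ (cb - 1) + es.length * (cb - 1) :=
          Nat.add_le_add h1 (ih (fun e he => h e (List.mem_cons_of_mem _ he)))
      _ = _ := by ring

theorem qtot_coeff (keep : ℕ → Bool) (rel base : ℕ → ℕ → ℕ) (ts : List Tile) (k : ℕ)
    (h : WF ts) :
    (qtot keep rel base ts).coeff k ≤ cnt ts * (cb - 1) := by
  induction ts with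
  | nil => simp [qtot]
  | cons t ts ih =>
    simp only [qtot, coeff_add, cnt]
    calc _ ≤ t.2.2.length * (cb - 1) + cnt ts * (cb - 1) :=
          Nat.add_le_add (qsum_coeff _ _ _ _ h.head) (ih h.tail)
      _ = _ := by ring

/-- sum of `G y x` against all weights of a tile list -/
noncomputable def S1 (G : ℕ → ℕ → ℝ) (y0 x0 : ℕ) : List ℕ → ℝ
  | [] => 0
  | e :: es => ev (fun i => G (y0 + ey e) i) (x0 + ex e) (dg e) + S1 G y0 x0 es

noncomputable def S (G : ℕ → ℕ → ℝ) : List Tile → ℝ
  | [] => 0
  | t :: ts => S1 G t.1 t.2.1 t.2.2 + S G ts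

theorem S1_add (G G' : ℕ → ℕ → ℝ) (y0 x0 : ℕ) (es : List ℕ) :
    S1 (fun y x => G y x + G' y x) y0 x0 es = S1 G y0 x0 es + S1 G' y0 x0 es := by
  induction es with
  | nil => simp [S1]
  | cons e es ih => simp only [S1, ih, ev_add]; ring

theorem S_add (G G' : ℕ → ℕ → ℝ) (ts : List Tile) :
    S (fun y x => G y x + G' y x) ts = S G ts + S G' ts := by
  induction ts with
  | nil => simp [S]
  | cons t ts ih => simp only [S, ih, S1_add]; ring

/-- If every entry's contribution is given by an index function, `S` is a linear functional of `qtot`. -/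
theorem S1_eq (G : ℕ → ℕ → ℝ) (φ : ℕ → ℝ) (keep : ℕ → Bool) (rel : ℕ → ℕ → ℕ) (y0 x0 b : ℕ)
    (es : List ℕ)
    (h : ∀ e ∈ es, ev (fun i => G (y0 + ey e) i) (x0 + ex e) (dg e)
      = bif keep (ey e) then ev φ (b + rel (ey e) (ex e)) (dg e) else 0) :
    S1 G y0 x0 es = lam φ (qsum keep (fun dy dx => b + rel dy dx) es) := by
  induction es with
  | nil => simp [S1, qsum, lam_zero]
  | cons e es ih =>
    simp only [S1, qsum, lam_add]
    rw [ih (fun e he => h e (by simp [he])), h e (by simp)]
    congr 1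
    cases keep (ey e) with
    | true => simp only [cond_true, lam_pol]
    | false => simp [lam_zero]

theorem S_eq (G : ℕ → ℕ → ℝ) (φ : ℕ → ℝ) (keep : ℕ → Bool) (rel base : ℕ → ℕ → ℕ)
    (ts : List Tile)
    (h : ∀ t ∈ ts, ∀ e ∈ t.2.2, ev (fun i => G (t.1 + ey e) i) (t.2.1 + ex e) (dg e)
      = bif keep (ey e) then ev φ (base t.1 t.2.1 + rel (ey e) (ex e)) (dg e) else 0) :
    S G ts = lam φ (qtot keep rel base ts) := by
  induction ts with
  | nil => simp [S, qtot, lam_zero]
  | cons t ts ih =>
    simp only [S, qtot, lam_add]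
    rw [ih (fun t ht => h t (by simp [ht])),
      S1_eq G φ keep rel t.1 t.2.1 (base t.1 t.2.1) t.2.2 (h t (by simp))]

/-- the key transfer lemma -/
theorem S_transfer (G : ℕ → ℕ → ℝ) (φ : ℕ → ℝ) (keep : ℕ → Bool) (rel base : ℕ → ℕ → ℕ)
    (P M : List Tile) (wP : WF P) (wM : WF M)
    (hP : cnt P * (cb - 1) < B) (hM : cnt M * (cb - 1) < B)
    (heq : tot keep rel base P = tot keep rel base M)
    (h : ∀ t ∈ P ++ M, ∀ e ∈ t.2.2, ev (fun i => G (t.1 + ey e) i) (t.2.1 + ex e) (dg e)
      = bif keep (ey e) then ev φ (base t.1 t.2.1 + rel (ey e) (ex e)) (dg e) else 0) :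
    S G P = S G M := by
  have h1 := S_eq G φ keep rel base P (fun t ht => h t (by simp [ht]))
  have h2 := S_eq G φ keep rel base M (fun t ht => h t (by simp [ht]))
  have h3 : qtot keep rel base P = qtot keep rel base M := by
    apply poly_unique _ _ B (by norm_num [B])
    · intro t; exact lt_of_le_of_lt (qtot_coeff _ _ _ _ _ wP) hP
    · intro t; exact lt_of_le_of_lt (qtot_coeff _ _ _ _ _ wM) hM
    · rw [qtot_eval _ _ _ _ wP, qtot_eval _ _ _ _ wM, heq]
  rw [h1, h2, h3]

/-! ### row sums -/

theorem sm_le (ds : List ℕ) (M : ℕ) (h : ∀ d ∈ ds, d ≤ M) : sm ds ≤ ds.length * M := by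
  induction ds with
  | nil => simp [sm]
  | cons d ds ih =>
    simp only [sm, List.length_cons]
    have h1 := h d (by simp)
    have h2 := ih (fun d hd => h d (by simp [hd]))
    calc d + sm ds ≤ M + ds.length * M := Nat.add_le_add h1 h2
      _ = _ := by ring

theorem sm_dg_le (e : ℕ) (he : wfe e = true) : sm (dg e) ≤ 256 * cb := by
  have h := sm_le (dg e) cb (fun d hd => (dg_lt e he d hd).le)
  rw [dg_length] at h
  exact h.trans (Nat.mul_le_mul_right _ (el_lt e).le)

theorem sm_dg_eq (e : ℕ) (he : wfe e = true) : en e % (B - 1) = sm (dg e) := by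
  rw [← dg_pk e he, pk_mod, Nat.mod_eq_of_lt]
  exact lt_of_le_of_lt (sm_dg_le e he) (by norm_num [cb, B])

noncomputable def ysq (y0 : ℕ) : List ℕ → ℕ[X]
  | [] => 0
  | e :: es => monomial (y0 + ey e) (sm (dg e)) + ysq y0 es

noncomputable def ytq : List Tile → ℕ[X]
  | [] => 0
  | t :: ts => ysq t.1 t.2.2 + ytq ts

theorem ysq_eval (y0 : ℕ) (es : List ℕ) (h : ∀ e ∈ es, wfe e = true) :
    (ysq y0 es).eval B = B ^ y0 * ysum es := by
  induction es with
  | nil => simp [ysq, ysum]
  | cons e es ih =>
    simp only [ysq, ysum, eval_add, eval_monomial,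
      ih (fun e he => h e (List.mem_cons_of_mem _ he)), sm_dg_eq e (h e List.mem_cons_self)]
    ring

theorem ytq_eval (ts : List Tile) (h : WF ts) : (ytq ts).eval B = ytot ts := by
  induction ts with
  | nil => simp [ytq, ytot]
  | cons t ts ih => simp only [ytq, ytot, eval_add, ih h.tail, ysq_eval _ _ h.head]

theorem ysq_coeff (y0 : ℕ) (es : List ℕ) (k : ℕ) (h : ∀ e ∈ es, wfe e = true) :
    (ysq y0 es).coeff k ≤ es.length * (256 * cb) := by
  induction es with
  | nil => simp [ysq]
  | cons e es ih =>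
    simp only [ysq, coeff_add, List.length_cons, coeff_monomial]
    have h1 : (if y0 + ey e = k then sm (dg e) else 0) ≤ 256 * cb := by
      split_ifs
      · exact sm_dg_le e (h e List.mem_cons_self)
      · exact Nat.zero_le _
    calc _ ≤ (256 * cb) + es.length * (256 * cb) :=
          Nat.add_le_add h1 (ih (fun e he => h e (List.mem_cons_of_mem _ he)))
      _ = _ := by ring

theorem ytq_coeff (ts : List Tile) (k : ℕ) (h : WF ts) :
    (ytq ts).coeff k ≤ cnt ts * (256 * cb) := by
  induction ts with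
  | nil => simp [ytq]
  | cons t ts ih =>
    simp only [ytq, coeff_add, cnt]
    calc _ ≤ t.2.2.length * (256 * cb) + cnt ts * (256 * cb) :=
          Nat.add_le_add (ysq_coeff _ _ _ h.head) (ih h.tail)
      _ = _ := by ring

theorem S1_row (g : ℕ → ℝ) (y0 x0 : ℕ) (es : List ℕ) :
    S1 (fun y _ => g y) y0 x0 es = lam g (ysq y0 es) := by
  induction es with
  | nil => simp [S1, ysq, lam_zero]
  | cons e es ih =>
    simp only [S1, ysq, lam_add, ih, ev_const]
    congr 1
    unfold lam
    rw [Polynomial.sum_monomial_index]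
    simp

theorem S_row (g : ℕ → ℝ) (ts : List Tile) : S (fun y _ => g y) ts = lam g (ytq ts) := by
  induction ts with
  | nil => simp [S, ytq, lam_zero]
  | cons t ts ih => simp only [S, ytq, lam_add, ih, S1_row]

theorem S_row_transfer (g : ℕ → ℝ) (P M : List Tile) (wP : WF P) (wM : WF M)
    (hP : cnt P * (256 * cb) < B)
    (hM : cnt M * (256 * cb) < B) (heq : ytot P = ytot M) :
    S (fun y _ => g y) P = S (fun y _ => g y) M := by
  have h3 : ytq P = ytq M := by
    apply poly_unique _ _ B (by norm_num [B])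
    · intro t; exact lt_of_le_of_lt (ytq_coeff _ _ wP) hP
    · intro t; exact lt_of_le_of_lt (ytq_coeff _ _ wM) hM
    · rw [ytq_eval _ wP, ytq_eval _ wM, heq]
  rw [S_row, S_row, h3]

/-! ### the four functionals -/

def kAll : ℕ → Bool := fun _ => true
def kEven : ℕ → Bool := fun n => n % 2 == 0
def kOdd : ℕ → Bool := fun n => n % 2 == 1
def relX : ℕ → ℕ → ℕ := fun _ dx => dx
def baseX : ℕ → ℕ → ℕ := fun _ x0 => x0
def relW : ℕ → ℕ → ℕ := fun dy dx => dx + 2 * (31 - dy)
def baseW : ℕ → ℕ → ℕ := fun y0 x0 => x0 + 2 * (6848 - y0)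
def relH : ℕ → ℕ → ℕ := fun dy dx => dx + dy / 2
def baseH : ℕ → ℕ → ℕ := fun y0 x0 => x0 + y0 / 2

/-- shape conditions on tiles: even base row, base row at most 6848, relative rows at most 31 -/
def shape (ts : List Tile) : Bool :=
  ts.all fun t => (t.1 % 2 == 0) && (Nat.ble t.1 6848) &&
    t.2.2.all fun e => Nat.ble (ey e) 31 && wfe e

theorem shape_spec {ts : List Tile} (h : shape ts = true) (t : Tile) (ht : t ∈ ts) :
    t.1 % 2 = 0 ∧ t.1 ≤ 6848 ∧ (∀ e ∈ t.2.2, ey e ≤ 31) ∧ ∀ e ∈ t.2.2, wfe e = true := by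
  unfold shape at h
  rw [List.all_eq_true] at h
  have := h t ht
  simp only [Bool.and_eq_true, beq_iff_eq, List.all_eq_true, Nat.ble_eq] at this
  exact ⟨this.1.1, this.1.2, fun e he => (this.2 e he).1, fun e he => (this.2 e he).2⟩

theorem shape_WF {ts : List Tile} (h : shape ts = true) : WF ts :=
  fun t ht => (shape_spec h t ht).2.2.2

/-- the numerical part of the certificate -/
structure Cert (P M : List Tile) : Prop where
  cP : cnt P * (256 * cb) < B
  cM : cnt M * (256 * cb) < B
  sP : shape P = true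
  sM : shape M = true
  eX : tot kAll relX baseX P = tot kAll relX baseX M
  eW : tot kAll relW baseW P = tot kAll relW baseW M
  eE : tot kEven relH baseH P = tot kEven relH baseH M
  eO : tot kOdd relH baseH P = tot kOdd relH baseH M
  eY : ytot P = ytot M

theorem Cert.transfer {P M : List Tile} (c : Cert P M) (g1 g2 g3 g4 : ℝ → ℝ) :
    S (fun y x => g1 x + g2 y + g3 (2 * x + y) + g4 (-x + 2 * y)) P =
    S (fun y x => g1 x + g2 y + g3 (2 * x + y) + g4 (-x + 2 * y)) M := by
  have hP' : cnt P * (cb - 1) < B := lt_of_le_of_lt (Nat.mul_le_mul_left _ (by norm_num [cb])) c.cP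
  have hM' : cnt M * (cb - 1) < B := lt_of_le_of_lt (Nat.mul_le_mul_left _ (by norm_num [cb])) c.cM
  have wP := shape_WF c.sP
  have wM := shape_WF c.sM
  have hsh : ∀ t ∈ P ++ M, t.1 % 2 = 0 ∧ t.1 ≤ 6848 ∧ ∀ e ∈ t.2.2, ey e ≤ 31 := by
    intro t ht
    rcases List.mem_append.1 ht with ht | ht
    · obtain ⟨h1, h2, h3, _⟩ := shape_spec c.sP t ht
      exact ⟨h1, h2, h3⟩
    · obtain ⟨h1, h2, h3, _⟩ := shape_spec c.sM t ht
      exact ⟨h1, h2, h3⟩
  have t1 : S (fun _ x => g1 x) P = S (fun _ x => g1 x) M := by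
    apply S_transfer (fun _ x => g1 x) (fun k => g1 k) kAll relX baseX P M wP wM hP' hM' c.eX
    intro t _ e _
    simp [kAll, baseX, relX]
  have t2 : S (fun y _ => g2 y) P = S (fun y _ => g2 y) M :=
    S_row_transfer (fun k => g2 k) P M wP wM c.cP c.cM c.eY
  have t4 : S (fun y x => g4 (-x + 2 * y)) P = S (fun y x => g4 (-x + 2 * y)) M := by
    apply S_transfer (fun y x => g4 (-x + 2 * y)) (fun k => g4 (13758 - k)) kAll relW baseW P M
      wP wM hP' hM' c.eW
    intro t ht e he
    obtain ⟨_, h2, h3⟩ := hsh t ht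
    have h3 := h3 e he
    simp only [kAll, cond_true, baseW, relW]
    rw [show t.2.1 + 2 * (6848 - t.1) + (ex e + 2 * (31 - ey e))
      = (t.2.1 + ex e) + (2 * (6848 - t.1) + 2 * (31 - ey e)) by ring]
    conv_rhs => rw [← ev_shift]
    apply ev_congr
    intro k _ _
    congr 1
    push_cast [Nat.cast_sub h2, Nat.cast_sub h3]
    ring
  have tE : S (fun y x => if y % 2 = 0 then g3 (2 * x + y) else 0) P =
      S (fun y x => if y % 2 = 0 then g3 (2 * x + y) else 0) M := by
    apply S_transfer (fun y x => if y % 2 = 0 then g3 (2 * x + y) else 0)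
      (fun k => g3 (2 * k)) kEven relH baseH P M wP wM hP' hM' c.eE
    intro t ht e he
    obtain ⟨h1, _, _⟩ := hsh t ht
    by_cases hy : ey e % 2 = 0
    · have hk : kEven (ey e) = true := by simp [kEven, hy]
      rw [hk, cond_true]
      have hyy : (t.1 + ey e) % 2 = 0 := by omega
      simp only [hyy, if_true, baseH, relH]
      rw [show t.2.1 + t.1 / 2 + (ex e + ey e / 2) = (t.2.1 + ex e) + (t.1 + ey e) / 2 by omega]
      conv_rhs => rw [← ev_shift]
      apply ev_congr
      intro k _ _
      congr 1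
      have : (t.1 + ey e) = 2 * ((t.1 + ey e) / 2) := by omega
      have h' : ((t.1 + ey e : ℕ) : ℝ) = 2 * (((t.1 + ey e) / 2 : ℕ) : ℝ) := by
        exact_mod_cast this
      rw [h', Nat.cast_add k]
      ring
    · have hk : kEven (ey e) = false := by simp [kEven, hy]
      rw [hk, cond_false]
      have hyy : ¬ (t.1 + ey e) % 2 = 0 := by omega
      simp only [hyy, if_false]
      rw [ev_const]
      ring
  have tO : S (fun y x => if y % 2 = 0 then 0 else g3 (2 * x + y)) P =
      S (fun y x => if y % 2 = 0 then 0 else g3 (2 * x + y)) M := by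
    apply S_transfer (fun y x => if y % 2 = 0 then 0 else g3 (2 * x + y))
      (fun k => g3 (2 * k + 1)) kOdd relH baseH P M wP wM hP' hM' c.eO
    intro t ht e he
    obtain ⟨h1, _, _⟩ := hsh t ht
    by_cases hy : ey e % 2 = 0
    · have hk : kOdd (ey e) = false := by simp [kOdd, hy]
      rw [hk, cond_false]
      have hyy : (t.1 + ey e) % 2 = 0 := by omega
      simp only [hyy, if_true]
      rw [ev_const]
      ring
    · have hy1 : ey e % 2 = 1 := by omega
      have hk : kOdd (ey e) = true := by simp [kOdd, hy1]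
      rw [hk, cond_true]
      have hyy : ¬ (t.1 + ey e) % 2 = 0 := by omega
      simp only [hyy, if_false, baseH, relH]
      rw [show t.2.1 + t.1 / 2 + (ex e + ey e / 2) = (t.2.1 + ex e) + (t.1 + ey e) / 2 by omega]
      conv_rhs => rw [← ev_shift]
      apply ev_congr
      intro k _ _
      congr 1
      have : (t.1 + ey e) = 2 * ((t.1 + ey e) / 2) + 1 := by omega
      have h' : ((t.1 + ey e : ℕ) : ℝ) = 2 * (((t.1 + ey e) / 2 : ℕ) : ℝ) + 1 := by
        exact_mod_cast this
      rw [h', Nat.cast_add k]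
      ring
  have key : (fun (y x : ℕ) => g1 x + g2 y + g3 (2 * x + y) + g4 (-x + 2 * y)) =
      (fun (y x : ℕ) => (((((fun (_ x : ℕ) => g1 x) y x) + ((fun (y _ : ℕ) => g2 y) y x)) +
        ((fun (y x : ℕ) => if y % 2 = 0 then g3 (2 * x + y) else 0) y x)) +
        ((fun (y x : ℕ) => if y % 2 = 0 then 0 else g3 (2 * x + y)) y x)) +
        ((fun (y x : ℕ) => g4 (-x + 2 * y)) y x)) := by
    funext y x
    by_cases hy : y % 2 = 0 <;> simp [hy]
  rw [key]
  simp only [S_add, t1, t2, t4, tE, tO]

end Pool.Agent.RidgeCert
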